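import Pool.Agent.Helper21.PS.Basic

/-!
# MP_8013d7_co (full answer), module FS: sums over the graphs of direct edges
-/

set_option autoImplicit false

namespace PS

open SimpleGraph Finset Pool.Agent.Helper37.PathSys
open Pool.Agent.Helper37.PathSys.PathSystem

open scoped Classical

noncomputable section

variable {n : ℕ} {G : SimpleGraph (Fin n)}

namespace FS

/-- the table of the edges of `F` -/
def bits (F : SimpleGraph (Fin n)) : Pr n → Bool := fun p => decide (F.Adj p.1.1 p.1.2)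

lemma bits_inj : Function.Injective (bits (n := n)) := by
  intro F F' h
  have key : ∀ u v : Fin n, u < v → (F.Adj u v ↔ F'.Adj u v) := by
    intro u v huv
    have := congrFun h ⟨(u, v), huv⟩
    simpa [bits] using this
  ext u v
  rcases lt_trichotomy u v with huv | rfl | huv
  · exact key u v huv
  · simp
  · rw [F.adj_comm, F'.adj_comm]
    exact key v u huv

lemma sum_bits_le (φ : Pr n → Bool → ℝ) (hφ : ∀ p b, 0 ≤ φ p b) :
    ∑ F : SimpleGraph (Fin n), ∏ p : Pr n, φ p (bits F p) ≤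
      ∏ p : Pr n, (φ p true + φ p false) := by
  have h1 : ∏ p : Pr n, (φ p true + φ p false) =
      ∑ f : Pr n → Bool, ∏ p : Pr n, φ p (f p) := by
    have := Finset.prod_univ_sum (fun _ : Pr n => (univ : Finset Bool)) φ
    rw [Fintype.piFinset_univ] at this
    rw [← this]
    refine prod_congr rfl fun p _ => ?_
    simp
  rw [h1]
  have h2 : ∑ F : SimpleGraph (Fin n), ∏ p : Pr n, φ p (bits F p) =
      ∑ f ∈ (univ : Finset (SimpleGraph (Fin n))).image bits, ∏ p : Pr n, φ p (f p) := by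
    rw [sum_image]
    intro F _ F' _ h
    exact bits_inj h
  rw [h2]
  refine sum_le_sum_of_subset_of_nonneg (subset_univ _) ?_
  intro f _ _
  exact prod_nonneg fun p _ => hφ p _

/-- the missing edges at the hubs are few -/
lemma card_le_MH {δ : ℝ} (hdeg : ∀ x, (dg G x : ℝ) ≤ (1 / 2 + δ) * n)
    (F : SimpleGraph (Fin n)) (hF : F ≤ G) :
    (((univ.filter fun p : Pr n => (G.Adj p.1.1 p.1.2 ∧ ¬ F.Adj p.1.1 p.1.2) ∧
      ¬ (p.1.1 ∉ Hs F ∧ p.1.2 ∉ Hs F)).card : ℕ) : ℝ) ≤ MH δ F := by
  set D := univ.filter fun p : Pr n => (G.Adj p.1.1 p.1.2 ∧ ¬ F.Adj p.1.1 p.1.2) ∧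
      ¬ (p.1.1 ∉ Hs F ∧ p.1.2 ∉ Hs F) with hD
  have h1 : D ⊆ (Hs F).biUnion fun x => D.filter fun p => p.1.1 = x ∨ p.1.2 = x := by
    intro p hp
    have hp' := hp
    rw [hD, mem_filter] at hp'
    rw [mem_biUnion]
    by_cases h : p.1.1 ∈ Hs F
    · exact ⟨_, h, mem_filter.2 ⟨hp, Or.inl rfl⟩⟩
    · have h2 : p.1.2 ∈ Hs F := by
        by_contra h2
        exact hp'.2.2 ⟨h, h2⟩
      exact ⟨_, h2, mem_filter.2 ⟨hp, Or.inr rfl⟩⟩
  have h2 : ∀ x ∈ Hs F, (((D.filter fun p => p.1.1 = x ∨ p.1.2 = x).card : ℕ) : ℝ) ≤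
      (1 / 2 + δ) * n - dg F x := by
    intro x _
    have h3 : (D.filter fun p => p.1.1 = x ∨ p.1.2 = x).card ≤ (NF G x \ NF F x).card := by
      refine card_le_card_of_injOn (fun p => if p.1.1 = x then p.1.2 else p.1.1) ?_ ?_
      · intro p hp
        rw [mem_coe, mem_filter, hD, mem_filter] at hp
        obtain ⟨⟨_, ⟨hg, hf⟩, _⟩, hx⟩ := hp
        rw [mem_coe, mem_sdiff]
        simp only [NF, mem_filter, mem_univ, true_and]
        split_ifs with h
        · rw [← h]
          exact ⟨hg, hf⟩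
        · have h4 : p.1.2 = x := hx.resolve_left h
          rw [← h4]
          exact ⟨hg.symm, fun h5 => hf h5.symm⟩
      · intro p hp q hq hpq
        rw [mem_coe, mem_filter] at hp hq
        have hp2 := p.2
        have hq2 := q.2
        apply Subtype.ext
        apply Prod.ext
        · by_cases h : p.1.1 = x <;> by_cases h' : q.1.1 = x
          · rw [h, h']
          · have h4 : q.1.2 = x := hq.2.resolve_left h'
            simp only [if_pos h, if_neg h'] at hpq
            rw [h] at hp2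
            rw [h4, ← hpq] at hq2
            exact absurd hp2 (not_lt.2 hq2.le)
          · have h4 : p.1.2 = x := hp.2.resolve_left h
            simp only [if_neg h, if_pos h'] at hpq
            rw [h'] at hq2
            rw [h4, hpq] at hp2
            exact absurd hp2 (not_lt.2 hq2.le)
          · simpa only [if_neg h, if_neg h'] using hpq
        · by_cases h : p.1.1 = x <;> by_cases h' : q.1.1 = x
          · simpa only [if_pos h, if_pos h'] using hpq
          · have h4 : q.1.2 = x := hq.2.resolve_left h'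
            simp only [if_pos h, if_neg h'] at hpq
            rw [h] at hp2
            rw [h4, ← hpq] at hq2
            exact absurd hp2 (not_lt.2 hq2.le)
          · have h4 : p.1.2 = x := hp.2.resolve_left h
            simp only [if_neg h, if_pos h'] at hpq
            rw [h'] at hq2
            rw [h4, hpq] at hp2
            exact absurd hp2 (not_lt.2 hq2.le)
          · rw [hp.2.resolve_left h, hq.2.resolve_left h']
    have h4 : NF F x ⊆ NF G x := by
      intro u hu
      simp only [NF, mem_filter, mem_univ, true_and] at hu ⊢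
      exact hF hu
    have h5 : (NF G x \ NF F x).card + dg F x = dg G x := by
      unfold dg
      exact card_sdiff_add_card_eq_card h4
    have h6 : (((NF G x \ NF F x).card : ℕ) : ℝ) + dg F x = dg G x := by
      exact_mod_cast h5
    have h7 : (((D.filter fun p => p.1.1 = x ∨ p.1.2 = x).card : ℕ) : ℝ) ≤
        (((NF G x \ NF F x).card : ℕ) : ℝ) := by exact_mod_cast h3
    linarith [hdeg x]
  calc ((D.card : ℕ) : ℝ) ≤
      ((((Hs F).biUnion fun x => D.filter fun p => p.1.1 = x ∨ p.1.2 = x).card : ℕ) : ℝ) := by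
        exact_mod_cast card_le_card h1
    _ ≤ ((∑ x ∈ Hs F, (D.filter fun p => p.1.1 = x ∨ p.1.2 = x).card : ℕ) : ℝ) := by
        exact_mod_cast card_biUnion_le
    _ = ∑ x ∈ Hs F, (((D.filter fun p => p.1.1 = x ∨ p.1.2 = x).card : ℕ) : ℝ) := by
        push_cast
        rfl
    _ ≤ MH δ F := sum_le_sum h2

/-- the weight of one pair -/
def ph (G : SimpleGraph (Fin n)) (a1 a2 : ℝ) (H : Finset (Fin n)) (p : Pr n) : Bool → ℝ
  | true => if G.Adj p.1.1 p.1.2 then
      (if p.1.1 ∉ H ∧ p.1.2 ∉ H then Real.exp (-a1) else 1) else 0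
  | false => if G.Adj p.1.1 p.1.2 ∧ ¬ (p.1.1 ∉ H ∧ p.1.2 ∉ H) then Real.exp (-a2) else 1

lemma ph_nonneg (G : SimpleGraph (Fin n)) (a1 a2 : ℝ) (H : Finset (Fin n)) (p : Pr n) (b : Bool) :
    0 ≤ ph G a1 a2 H p b := by
  cases b
  · unfold ph
    split_ifs <;> positivity
  · unfold ph
    split_ifs <;> positivity

lemma ph_sum_le (G : SimpleGraph (Fin n)) (a1 a2 : ℝ) (H : Finset (Fin n)) (p : Pr n) :
    ph G a1 a2 H p true + ph G a1 a2 H p false ≤
      (1 + Real.exp (-a1)) * (1 + Real.exp (-a2)) := by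
  have h1 := Real.exp_pos (-a1)
  have h2 := Real.exp_pos (-a2)
  have h3 := mul_pos h1 h2
  unfold ph
  by_cases hG : G.Adj p.1.1 p.1.2
  · by_cases hH : p.1.1 ∉ H ∧ p.1.2 ∉ H
    · simp only [hG, hH, if_true, not_true_eq_false, and_false, if_false, not_false_eq_true,
        and_self]
      nlinarith
    · simp only [hG, hH, if_true, if_false, not_false_eq_true, and_self]
      nlinarith
  · simp only [hG, if_false, false_and]
    nlinarith

lemma summand_le {δ : ℝ} (hdeg : ∀ x, (dg G x : ℝ) ≤ (1 / 2 + δ) * n) (a1 a2 : ℝ)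
    (h2 : 0 ≤ a2) (F : SimpleGraph (Fin n)) (hF : F ≤ G) :
    Real.exp (-(a1 * f0 F) - a2 * MH δ F) ≤ ∏ p : Pr n, ph G a1 a2 (Hs F) p (bits F p) := by
  set A := univ.filter fun p : Pr n => F.Adj p.1.1 p.1.2 ∧ p.1.1 ∉ Hs F ∧ p.1.2 ∉ Hs F with hA
  set D := univ.filter fun p : Pr n => (G.Adj p.1.1 p.1.2 ∧ ¬ F.Adj p.1.1 p.1.2) ∧
      ¬ (p.1.1 ∉ Hs F ∧ p.1.2 ∉ Hs F) with hD
  have hm : ((D.card : ℕ) : ℝ) ≤ MH δ F := card_le_MH hdeg F hF
  have e1 : ∏ p : Pr n, ph G a1 a2 (Hs F) p (bits F p) =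
      ∏ p : Pr n, ((if p ∈ A then Real.exp (-a1) else 1) *
        (if p ∈ D then Real.exp (-a2) else 1)) := by
    refine prod_congr rfl fun p _ => ?_
    by_cases hf : F.Adj p.1.1 p.1.2
    · have hg : G.Adj p.1.1 p.1.2 := hF hf
      have hb : bits F p = true := by simp [bits, hf]
      have hpD : p ∉ D := by simp [hD, hf]
      rw [hb, if_neg hpD, mul_one]
      unfold ph
      simp only [hg, if_true, hA, mem_filter, mem_univ, true_and, hf]
    · have hb : bits F p = false := by simp [bits, hf]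
      have hpA : p ∉ A := by simp [hA, hf]
      rw [hb, if_neg hpA, one_mul]
      unfold ph
      simp only [hD, mem_filter, mem_univ, true_and, hf, not_false_eq_true, and_true]
  have e2 : ∏ p : Pr n, ((if p ∈ A then Real.exp (-a1) else 1) *
        (if p ∈ D then Real.exp (-a2) else 1)) =
      Real.exp (-a1) ^ A.card * Real.exp (-a2) ^ D.card := by
    rw [prod_mul_distrib]
    simp only [prod_ite_mem, univ_inter, prod_const]
  rw [e1, e2, ← Real.exp_nat_mul, ← Real.exp_nat_mul, ← Real.exp_add]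
  apply Real.exp_le_exp.2
  have hf0 : (f0 F : ℝ) = (A.card : ℝ) := rfl
  rw [hf0]
  nlinarith [mul_le_mul_of_nonneg_left hm h2]

end FS

theorem F_sum {δ : ℝ} (hdeg : ∀ x, (dg G x : ℝ) ≤ (1 / 2 + δ) * n) (a1 a2 : ℝ)
    (h1 : 0 ≤ a1) (h2 : 0 ≤ a2) :
    ∑ F ∈ (univ : Finset (SimpleGraph (Fin n))).filter (fun F => F ≤ G),
      Real.exp (-(a1 * f0 F) - a2 * MH δ F) ≤
      2 ^ n * (1 + Real.exp (-a1)) ^ (n.choose 2) * (1 + Real.exp (-a2)) ^ (n.choose 2) := by
  have _ := h1
  calc ∑ F ∈ (univ : Finset (SimpleGraph (Fin n))).filter (fun F => F ≤ G),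
      Real.exp (-(a1 * f0 F) - a2 * MH δ F)
      ≤ ∑ F ∈ (univ : Finset (SimpleGraph (Fin n))).filter (fun F => F ≤ G),
        ∑ H : Finset (Fin n), ∏ p : Pr n, FS.ph G a1 a2 H p (FS.bits F p) := by
        refine sum_le_sum fun F hF => ?_
        refine (FS.summand_le hdeg a1 a2 h2 F (mem_filter.1 hF).2).trans ?_
        exact single_le_sum (f := fun H => ∏ p : Pr n, FS.ph G a1 a2 H p (FS.bits F p))
          (fun H _ => prod_nonneg fun p _ => FS.ph_nonneg G a1 a2 H p _) (mem_univ (Hs F))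
    _ ≤ ∑ F : SimpleGraph (Fin n), ∑ H : Finset (Fin n),
        ∏ p : Pr n, FS.ph G a1 a2 H p (FS.bits F p) := by
        refine sum_le_sum_of_subset_of_nonneg (filter_subset _ _) fun F _ _ => ?_
        exact sum_nonneg fun H _ => prod_nonneg fun p _ => FS.ph_nonneg G a1 a2 H p _
    _ = ∑ H : Finset (Fin n), ∑ F : SimpleGraph (Fin n),
        ∏ p : Pr n, FS.ph G a1 a2 H p (FS.bits F p) := sum_comm
    _ ≤ ∑ _H : Finset (Fin n), ((1 + Real.exp (-a1)) * (1 + Real.exp (-a2))) ^ (n.choose 2) := by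
        refine sum_le_sum fun H _ => ?_
        refine (FS.sum_bits_le _ (FS.ph_nonneg G a1 a2 H)).trans ?_
        refine (prod_le_prod (fun p _ => add_nonneg (FS.ph_nonneg G a1 a2 H p _)
          (FS.ph_nonneg G a1 a2 H p _)) (fun p _ => FS.ph_sum_le G a1 a2 H p)).trans ?_
        rw [prod_const, card_univ, card_Pr]
    _ = 2 ^ n * (1 + Real.exp (-a1)) ^ (n.choose 2) * (1 + Real.exp (-a2)) ^ (n.choose 2) := by
        rw [sum_const, card_univ, Fintype.card_finset, Fintype.card_fin, nsmul_eq_mul, mul_pow]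
        push_cast
        ring

theorem F_sum' (n : ℕ) (a : ℝ) : ∑ F : SimpleGraph (Fin n), Real.exp (-(a * nE F)) ≤
    (1 + Real.exp (-a)) ^ (n.choose 2) := by
  have h := FS.sum_bits_le (n := n) (fun _ b => if b = true then Real.exp (-a) else 1)
    (fun _ b => by split_ifs <;> positivity)
  simp only [if_true, Bool.false_eq_true, if_false] at h
  rw [prod_const, card_univ, card_Pr] at h
  refine le_trans (le_of_eq ?_) (h.trans (le_of_eq (by rw [add_comm])))
  refine sum_congr rfl fun F _ => ?_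
  have e : ∏ p : Pr n, (if FS.bits F p = true then Real.exp (-a) else 1) =
      ∏ p : Pr n, (if p ∈ (univ.filter fun p : Pr n => F.Adj p.1.1 p.1.2) then
        Real.exp (-a) else 1) := by
    refine prod_congr rfl fun p _ => ?_
    simp [FS.bits]
  rw [e]
  simp only [prod_ite_mem, univ_inter, prod_const]
  rw [← Real.exp_nat_mul]
  congr 1
  unfold nE
  ring

end

end PS
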